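import Pool.Agent.TH32.H.Fast
import Pool.Agent.TH740.TZH_FIN

/-! Job 2983 (TZH-FINS): final assembly, version with `GoodS`. -/

set_option autoImplicit false

namespace Pool.Agent.TH97.TZH

open Polynomial Pool.Agent.H260TZ Pool.Agent.TH32 Pool.Agent.TH740.TZH

theorem ser_nil {K : ℕ} {F : Fac} {q x : ℝ} :
    (open Classical in ∑' v : Fin K → ℕ, if ∀ c ∈ ([] : List Fm), 0 ≤ ev c v then
      ENNReal.ofReal (F.val q x v) else 0) = ∑' v : Fin K → ℕ, ENNReal.ofReal (F.val q x v) := by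
  refine tsum_congr fun v => ?_
  rw [if_pos]
  intro c hc
  simp at hc

theorem ext_existsS (Λ : ℤ) :
    ∀ (bs : List Blk) (P : List (List ℤ × List ℤ)),
      List.Forall₂ (fun (B : Blk) (p : List ℤ × List ℤ) =>
        GoodS B.K B.u Λ [] B.A p.1 ∧ GoodS B.K (B.u + 1) Λ [] B.B p.2) bs P →
      ∃ L, Ext Λ bs P L := by
  intro bs P hF
  induction hF with
  | nil =>
    refine ⟨[], ⟨by simp, ?_, ?_⟩⟩
    · intro q x _ _ _
      simp [bsum]
    · refine ⟨0, 1, ∅, by simp, Set.finite_empty, fun s _ => ?_⟩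
      simp [pval, polSum]
  | @cons B p bs P hB _ ih =>
    obtain ⟨L, hL⟩ := ih
    obtain ⟨⟨LA, okA, lenA, polA, serA⟩, ⟨LB, okB, lenB, polB, serB⟩⟩ := hB
    refine ⟨⟨B.m, B.u, B.u2, B.u3, LA⟩ :: ⟨B.m, B.u + 1, B.u2, B.u3, LB⟩ :: L, ?_⟩
    refine ⟨?_, ?_, ?_⟩
    · intro r hr
      rw [List.mem_cons, List.mem_cons] at hr
      rcases hr with rfl | rfl | hr
      · exact ⟨okA, lenA⟩
      · exact ⟨okB, lenB⟩
      · exact hL.ok r hr
    · intro q x hq hx hx5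
      have hqR : (3 : ℝ) ≤ q := by exact_mod_cast hq
      obtain ⟨hv0, hv⟩ := hL.val q x hq hx hx5
      obtain ⟨hA0, hA⟩ := serA q x (by linarith) hx hx5
      obtain ⟨hB0, hB'⟩ := serB q x (by linarith) hx hx5
      rw [ser_nil] at hA hB'
      have hk := kap_nonneg hqR B.m B.u B.u2 B.u3
      have hq1 : (0 : ℝ) ≤ 1 - (q : ℝ)⁻¹ := by
        have : (q : ℝ)⁻¹ ≤ 1 := inv_le_one_of_one_le₀ (by linarith)
        linarith
      have e1 : kap q B.m (B.u + 1) B.u2 B.u3 = kap q B.m B.u B.u2 B.u3 * (1 - (q : ℝ)⁻¹) := by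
        unfold kap; ring
      have e2 : (PB.val q x ⟨B.m, B.u, B.u2, B.u3, LA⟩ + PB.val q x ⟨B.m, B.u + 1, B.u2, B.u3, LB⟩) =
          kap q B.m B.u B.u2 B.u3 * (sv q x LA + (1 - (q : ℝ)⁻¹) * sv q x LB) := by
        simp only [PB.val, e1]; ring
      have e3 : 0 ≤ sv q x LA + (1 - (q : ℝ)⁻¹) * sv q x LB :=
        add_nonneg hA0 (mul_nonneg hq1 hB0)
      have e4 : 0 ≤ PB.val q x ⟨B.m, B.u, B.u2, B.u3, LA⟩ +
          PB.val q x ⟨B.m, B.u + 1, B.u2, B.u3, LB⟩ := by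
        rw [e2]; exact mul_nonneg hk e3
      have e5 : ((⟨B.m, B.u, B.u2, B.u3, LA⟩ :: ⟨B.m, B.u + 1, B.u2, B.u3, LB⟩ :: L).map
          (fun p : PB => p.val q x)).sum =
          (PB.val q x ⟨B.m, B.u, B.u2, B.u3, LA⟩ + PB.val q x ⟨B.m, B.u + 1, B.u2, B.u3, LB⟩) +
            (L.map (fun p => p.val q x)).sum := by
        simp only [List.map_cons, List.sum_cons]; ring
      rw [e5]
      refine ⟨add_nonneg e4 hv0, ?_⟩
      have e6 : bsum q x (B :: bs) = B.sum q x + bsum q x bs := by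
        simp [bsum]
      rw [e6, hv, ENNReal.ofReal_add e4 hv0]
      congr 1
      unfold Blk.sum
      rw [hA, hB', e2, ← ENNReal.ofReal_mul hq1, ← ENNReal.ofReal_add hA0 (mul_nonneg hq1 hB0),
        ← ENNReal.ofReal_mul hk]
    · obtain ⟨N0, D0, H0, hD0, hH0, h0⟩ := hL.lim
      obtain ⟨NA, DA, hDA, hA⟩ := polA
      obtain ⟨NB, DB, hDB, hB⟩ := polB
      set κ : ℚ := (B.m : ℚ) * (-1) ^ B.u2 * (-2) ^ B.u3 with hκ
      refine ⟨C κ * (NA * DB + NB * DA) * D0 + N0 * (DA * DB), DA * DB * D0,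
        H0 ∪ ({0} ∪ ({s : ℤ | ¬ ∀ t ∈ top B.u LA, t.reg s} ∪
          {s : ℤ | ¬ ∀ t ∈ top (B.u + 1) LB, t.reg s})), ?_, ?_, ?_⟩
      · simp only [eval_mul]
        exact mul_ne_zero (mul_ne_zero hDA hDB) hD0
      · exact hH0.union ((Set.finite_singleton 0).union
          ((finite_list _ (top_ok okA)).union (finite_list _ (top_ok okB))))
      · intro s hs
        simp only [Set.mem_union, Set.mem_singleton_iff, Set.mem_ofPred_eq, not_or, not_not] at hs
        obtain ⟨hs0, hs1, hs2, hs3⟩ := hs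
        have hsq : (s : ℚ) ≠ 0 := by exact_mod_cast hs1
        obtain ⟨hD0s, e0⟩ := h0 s hs0
        obtain ⟨hDAs, eA⟩ := hA s hsq hs2
        obtain ⟨hDBs, eB⟩ := hB s hsq hs3
        refine ⟨by simp only [eval_mul]; exact mul_ne_zero (mul_ne_zero hDAs hDBs) hD0s, ?_⟩
        simp only [List.map_cons, List.sum_cons, PB.lim]
        rw [eA, eB, e0]
        have e1 : polSum (B :: bs) (p :: P) =
          addF ((addF p.1 p.2).map (fun a => (B.m : ℤ) * (-1) ^ B.u2 * (-2) ^ B.u3 * a))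
            (polSum bs P) := rfl
        rw [e1, pval_addF, pval_smul, pval_addF]
        simp only [eval_mul, eval_add, eval_C]
        push_cast
        rw [← hκ]
        field_simp
        ring

theorem finS : FinalSAsm := by
  intro hS2 hS3 hTop Λ P _ hF hz
  obtain ⟨L, hL⟩ := ext_existsS Λ blks P hF
  obtain ⟨N, Dn, H, hD0, hH, hlim⟩ := hL.lim
  refine ⟨N, Dn, ?_, hD0⟩
  have hDn : Dn ≠ 0 := by
    rintro rfl
    exact hD0 (by simp)
  refine hTop L hL.ok ?_ N Dn H hDn hH fun s hs => ?_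
  · intro R _ _ D x hq hx hx5
    obtain ⟨hv0, hv⟩ := hL.val D.q x hq hx hx5
    have h1 := hS2 R D x hx hq
    rw [hS3 D.q x hq hx, hv] at h1
    have h2 : (∑' U : FinSub cH R,
        ENNReal.ofReal (x ^ Nat.log D.q (Nat.card ((Fin 4 → R) ⧸ U.1)))) ≠ ⊤ := by
      rw [h1]; exact ENNReal.ofReal_ne_top
    have h3 := ENNReal.hasSum_toReal h2
    rw [← ENNReal.tsum_toReal_eq (fun _ => ENNReal.ofReal_ne_top), h1,
      ENNReal.toReal_ofReal hv0] at h3
    refine h3.congr_fun ?_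
    intro U
    rw [ENNReal.toReal_ofReal (by positivity)]
  · obtain ⟨h1, h2⟩ := hlim s hs
    refine ⟨h1, ?_⟩
    rw [h2, pval_zero Λ s _ hz, zero_add]

end Pool.Agent.TH97.TZH
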